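import Mathlib

/-!
# Numerical bounds for products of sines
-/

set_option autoImplicit false

namespace Pool.Agent.Q23.SP

open Real Finset

/-- reduction of `m` modulo `321` and up to sign -/
def red (m : ℕ) : ℕ := min (m % 321) (321 - m % 321)

/-- upper bound for `sin^2 (π b / 321)` -/
def UU (b : ℕ) : ℚ :=
  if b ≤ 76 then ((22 / 7 : ℚ) * b / 321) ^ 2
  else 1 - ((314 / 100 : ℚ) * (321 - 2 * b) / 642 - ((314 / 100 : ℚ) * (321 - 2 * b) / 642) ^ 3 / 4) ^ 2

/-- lower bound for `sin^2 (π b / 321)` -/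
def LL (b : ℕ) : ℚ :=
  if b ≤ 80 then ((314 / 100 : ℚ) * b / 321 - ((314 / 100 : ℚ) * b / 321) ^ 3 / 4) ^ 2
  else (1 - ((22 / 7 : ℚ) * (321 - 2 * b) / 642) ^ 2 / 2) ^ 2

lemma sin_red (m : ℕ) : sin (π * m / 321) ^ 2 = sin (π * (red m : ℕ) / 321) ^ 2 := by
  have h1 : sin (π * m / 321) ^ 2 = sin (π * ((m % 321 : ℕ) : ℝ) / 321) ^ 2 := by
    have h2 : (m : ℝ) = ((m % 321 : ℕ) : ℝ) + 321 * ((m / 321 : ℕ) : ℝ) := by
      have := Nat.mod_add_div m 321
      exact_mod_cast this.symm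
    have h3 : π * m / 321 = π * ((m % 321 : ℕ) : ℝ) / 321 + ((m / 321 : ℕ) : ℝ) * π := by
      rw [h2]
      push_cast
      ring_nf
    rw [h3, sin_add_nat_mul_pi, mul_pow, ← pow_mul, mul_comm (m / 321), pow_mul]
    simp
  rw [h1, red]
  rcases le_total (m % 321) (321 - m % 321) with h | h
  · rw [min_eq_left h]
  · rw [min_eq_right h]
    have h4 := Nat.mod_lt m (show 321 > 0 by norm_num)
    rw [Nat.cast_sub h4.le]
    rw [show π * (((321 : ℕ) : ℝ) - ((m % 321 : ℕ) : ℝ)) / 321 = π - π * ((m % 321 : ℕ) : ℝ) / 321 by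
      push_cast; ring, sin_pi_sub]

lemma red_le (m : ℕ) : red m ≤ 160 := by
  unfold red
  have := Nat.mod_lt m (show 321 > 0 by norm_num)
  omega

lemma sin_le_UU {b : ℕ} (hb : b ≤ 160) : sin (π * b / 321) ^ 2 ≤ (UU b : ℝ) := by
  have hp1 := pi_gt_d2
  have hp2 : π < 22 / 7 := by have := pi_lt_d4; linarith
  have hb' : (b : ℝ) ≤ 160 := by exact_mod_cast hb
  have hb0 : (0 : ℝ) ≤ b := by positivity
  unfold UU
  split_ifs with h
  · push_cast
    apply pow_le_pow_left₀
    · apply sin_nonneg_of_nonneg_of_le_pi (by positivity)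
      rw [div_le_iff₀ (by norm_num)]
      nlinarith [pi_pos]
    · refine (sin_le (by positivity)).trans ?_
      gcongr
  · push_cast
    push Not at h
    have h' : (77 : ℝ) ≤ b := by exact_mod_cast h
    set L : ℝ := 314 / 100 * (321 - 2 * (b : ℝ)) / 642 with hL
    have hL0 : 0 < L := by
      rw [hL]
      apply div_pos _ (by norm_num)
      nlinarith
    have hL1 : L ≤ 1 := by
      rw [hL, div_le_one (by norm_num)]
      nlinarith
    have h1 : L - L ^ 3 / 4 ≤ sin L := by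
      have := sin_gt_sub_cube hL0
      have : 0 < L ^ 3 := by positivity
      linarith
    have h2 : π * b / 321 = π / 2 - π * (321 - 2 * (b : ℝ)) / 642 := by ring
    have h3 : L ≤ π * (321 - 2 * (b : ℝ)) / 642 := by
      rw [hL]
      apply div_le_div_of_nonneg_right _ (by norm_num)
      apply mul_le_mul_of_nonneg_right _ (by linarith)
      norm_num at hp1 ⊢
      linarith
    have h4 : π * (321 - 2 * (b : ℝ)) / 642 ≤ π / 2 := by
      rw [div_le_div_iff₀ (by norm_num) (by norm_num)]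
      nlinarith [pi_pos]
    have h5 : sin L ≤ sin (π * (321 - 2 * (b : ℝ)) / 642) :=
      sin_le_sin_of_le_of_le_pi_div_two (by linarith [pi_pos]) h4 h3
    rw [h2, sin_pi_div_two_sub]
    have h6 : 0 ≤ L - L ^ 3 / 4 := by
      have : L ^ 3 ≤ L := by
        have h7 : L ^ 2 ≤ 1 := by nlinarith
        nlinarith
      linarith
    have h7 : (L - L ^ 3 / 4) ^ 2 ≤ sin (π * (321 - 2 * (b : ℝ)) / 642) ^ 2 :=
      pow_le_pow_left₀ h6 (h1.trans h5) 2
    have h8 := sin_sq_add_cos_sq (π * (321 - 2 * (b : ℝ)) / 642)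
    linarith

lemma LL_le_sin {b : ℕ} (hb : b ≤ 160) : (LL b : ℝ) ≤ sin (π * b / 321) ^ 2 := by
  have hp1 := pi_gt_d2
  have hp2 : π < 22 / 7 := by have := pi_lt_d4; linarith
  have hb' : (b : ℝ) ≤ 160 := by exact_mod_cast hb
  have hb0 : (0 : ℝ) ≤ b := by positivity
  unfold LL
  split_ifs with h
  · push_cast
    have h' : (b : ℝ) ≤ 80 := by exact_mod_cast h
    rcases Nat.eq_zero_or_pos b with h0 | h0
    · subst h0
      simp
    have h0' : (0 : ℝ) < b := by exact_mod_cast h0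
    set L : ℝ := 314 / 100 * (b : ℝ) / 321 with hL
    have hL0 : 0 < L := by positivity
    have hL1 : L ≤ 1 := by
      rw [hL, div_le_one (by norm_num)]
      nlinarith
    have h1 : L - L ^ 3 / 4 ≤ sin L := by
      have := sin_gt_sub_cube hL0
      have : 0 < L ^ 3 := by positivity
      linarith
    have h3 : L ≤ π * b / 321 := by
      rw [hL]
      apply div_le_div_of_nonneg_right _ (by norm_num)
      apply mul_le_mul_of_nonneg_right _ (by linarith)
      norm_num at hp1 ⊢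
      linarith
    have h4 : π * b / 321 ≤ π / 2 := by
      rw [div_le_div_iff₀ (by norm_num) (by norm_num)]
      nlinarith [pi_pos]
    have h5 : sin L ≤ sin (π * b / 321) :=
      sin_le_sin_of_le_of_le_pi_div_two (by linarith [pi_pos]) h4 h3
    have h6 : 0 ≤ L - L ^ 3 / 4 := by
      have : L ^ 3 ≤ L := by
        have h7 : L ^ 2 ≤ 1 := by nlinarith
        nlinarith
      linarith
    exact pow_le_pow_left₀ h6 (h1.trans h5) 2
  · push_cast
    push Not at h
    have h' : (81 : ℝ) ≤ b := by exact_mod_cast h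
    have h2 : π * b / 321 = π / 2 - π * (321 - 2 * (b : ℝ)) / 642 := by ring
    rw [h2, sin_pi_div_two_sub]
    have h3 : π * (321 - 2 * (b : ℝ)) / 642 ≤ 22 / 7 * (321 - 2 * (b : ℝ)) / 642 := by
      apply div_le_div_of_nonneg_right _ (by norm_num)
      apply mul_le_mul_of_nonneg_right _ (by linarith)
      linarith
    have h4 : 0 ≤ π * (321 - 2 * (b : ℝ)) / 642 := by
      apply div_nonneg _ (by norm_num)
      apply mul_nonneg pi_pos.le (by linarith)
    have h5 : 22 / 7 * (321 - 2 * (b : ℝ)) / 642 ≤ 1 := by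
      rw [div_le_one (by norm_num)]
      nlinarith
    have h6 := one_sub_sq_div_two_le_cos (x := π * (321 - 2 * (b : ℝ)) / 642)
    have h7 : (π * (321 - 2 * (b : ℝ)) / 642) ^ 2 ≤ (22 / 7 * (321 - 2 * (b : ℝ)) / 642) ^ 2 :=
      pow_le_pow_left₀ h4 h3 2
    have h8 : (22 / 7 * (321 - 2 * (b : ℝ)) / 642) ^ 2 ≤ 1 := by
      have := h4.trans h3
      nlinarith
    apply pow_le_pow_left₀
    · linarith
    · linarith

/-- the product of the upper bounds -/
lemma UU_prod : ∏ k ∈ Icc 1 53, (4 * UU (red (107 + 3 * (107 * 27) - 3 * k ^ 2))) < 1 / 1000 := by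
  decide +kernel

/-- the product of the lower bounds -/
lemma LL_prod : 450 < ∏ k ∈ Icc 1 53, (4 * LL (red (107 + 3 * k ^ 2))) := by
  decide +kernel

lemma UU_prod_real : ∏ k ∈ Icc 1 53, (4 * sin (π * ((107 + 3 * (107 * 27) - 3 * k ^ 2 : ℕ) : ℝ) / 321) ^ 2)
    < 1 / 1000 := by
  have h1 : ((∏ k ∈ Icc 1 53, (4 * UU (red (107 + 3 * (107 * 27) - 3 * k ^ 2))) : ℚ) : ℝ) <
      1 / 1000 := by
    have := UU_prod
    have h2 : ((∏ k ∈ Icc 1 53, (4 * UU (red (107 + 3 * (107 * 27) - 3 * k ^ 2))) : ℚ) : ℝ) <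
      ((1 / 1000 : ℚ) : ℝ) := by exact_mod_cast this
    simpa using h2
  refine lt_of_le_of_lt ?_ h1
  rw [Rat.cast_prod]
  apply prod_le_prod
  · intro k _
    positivity
  · intro k _
    rw [sin_red]
    push_cast
    apply mul_le_mul_of_nonneg_left (sin_le_UU (red_le _)) (by norm_num)

lemma LL_nonneg (b : ℕ) : 0 ≤ LL b := by
  unfold LL
  split_ifs <;> positivity

lemma LL_prod_real : 450 < ∏ k ∈ Icc 1 53, (4 * sin (π * ((107 + 3 * k ^ 2 : ℕ) : ℝ) / 321) ^ 2) := by
  have h1 : (450 : ℝ) < ((∏ k ∈ Icc 1 53, (4 * LL (red (107 + 3 * k ^ 2))) : ℚ) : ℝ) := by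
    have := LL_prod
    have h2 : ((450 : ℚ) : ℝ) < ((∏ k ∈ Icc 1 53, (4 * LL (red (107 + 3 * k ^ 2))) : ℚ) : ℝ) := by
      exact_mod_cast this
    simpa using h2
  refine lt_of_lt_of_le h1 ?_
  rw [Rat.cast_prod]
  apply prod_le_prod
  · intro k _
    have := LL_nonneg (red (107 + 3 * k ^ 2))
    have h2 : (0 : ℝ) ≤ (LL (red (107 + 3 * k ^ 2)) : ℝ) := by exact_mod_cast this
    push_cast
    positivity
  · intro k _
    rw [sin_red]
    push_cast
    apply mul_le_mul_of_nonneg_left (LL_le_sin (red_le _)) (by norm_num)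

end Pool.Agent.Q23.SP
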