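import Mathlib

/-!
# Products over the quadratic residues
-/

set_option autoImplicit false

namespace Pool.Agent.Q23.SP

open Finset

section

variable {p : ℕ} [Fact p.Prime]

/-- the standard additive character -/
noncomputable def e (p : ℕ) [Fact p.Prime] (a : ZMod p) : ℂ := ZMod.stdAddChar a

lemma e_int (j : ℤ) : e p (j : ZMod p) = Complex.exp (2 * Real.pi * Complex.I * j / p) :=
  ZMod.stdAddChar_coe j

lemma e_nat (j : ℕ) : e p (j : ZMod p) = Complex.exp (2 * Real.pi * Complex.I * j / p) := by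
  have := e_int (p := p) (j : ℤ)
  push_cast at this
  exact this

lemma e_add (a b : ZMod p) : e p (a + b) = e p a * e p b := AddChar.map_add_eq_mul _ a b

lemma e_zero : e p 0 = 1 := AddChar.map_zero_eq_one _

lemma e_neg_mul (a : ZMod p) : e p (-a) * e p a = 1 := by
  rw [← e_add, neg_add_cancel, e_zero]

lemma e_ne (a : ZMod p) : e p a ≠ 0 := by
  intro h
  have := e_neg_mul a
  rw [h, mul_zero] at this
  exact zero_ne_one this

lemma e_inj : Function.Injective (e p) := ZMod.injective_stdAddChar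

lemma e_nsmul (n : ℕ) (a : ZMod p) : e p ((n : ZMod p) * a) = e p a ^ n := by
  rw [← nsmul_eq_mul]
  exact AddChar.map_nsmul_eq_pow _ _ _

lemma e_pow_p (a : ZMod p) : e p a ^ p = 1 := by
  rw [← e_nsmul, CharP.cast_eq_zero, zero_mul, e_zero]

/-- the quadratic residues -/
def QR (p : ℕ) [Fact p.Prime] : Finset (ZMod p) := univ.filter (fun a => quadraticChar (ZMod p) a = 1)

/-- the quadratic nonresidues -/
def NR (p : ℕ) [Fact p.Prime] : Finset (ZMod p) := univ.filter (fun a => quadraticChar (ZMod p) a = -1)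

lemma mem_QR {a : ZMod p} : a ∈ QR p ↔ quadraticChar (ZMod p) a = 1 := by simp [QR]

lemma mem_NR {a : ZMod p} : a ∈ NR p ↔ quadraticChar (ZMod p) a = -1 := by simp [NR]

lemma ne_of_mem_QR {a : ZMod p} (h : a ∈ QR p) : a ≠ 0 := by
  rintro rfl
  rw [mem_QR, quadraticChar_zero] at h
  norm_num at h

/-- the numbers `k^2`, `1 ≤ k ≤ (p-1)/2`, run through the quadratic residues -/
lemma prod_sq {M : Type*} [CommMonoid M] (hp : p ≠ 2) (f : ZMod p → M) :
    ∏ k ∈ Icc 1 ((p - 1) / 2), f (((k : ℕ) : ZMod p) ^ 2) = ∏ r ∈ QR p, f r := by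
  have hodd := (Fact.out : p.Prime).eq_two_or_odd.resolve_left hp
  have hcast : ∀ k : ℕ, 1 ≤ k → k < p → ((k : ℕ) : ZMod p) ≠ 0 := by
    intro k h1 h2 h3
    rw [ZMod.natCast_eq_zero_iff] at h3
    exact absurd (Nat.le_of_dvd (by omega) h3) (by omega)
  apply prod_bij (fun k _ => ((k : ℕ) : ZMod p) ^ 2)
  · intro k hk
    rw [mem_Icc] at hk
    rw [mem_QR]
    exact quadraticChar_sq_one' (hcast k hk.1 (by omega))
  · intro a ha b hb hab
    rw [mem_Icc] at ha hb
    rw [sq_eq_sq_iff_eq_or_eq_neg] at hab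
    rcases hab with h | h
    · rw [ZMod.natCast_eq_natCast_iff', Nat.mod_eq_of_lt (by omega), Nat.mod_eq_of_lt (by omega)] at h
      exact h
    · exfalso
      apply hcast (a + b) (by omega) (by omega)
      push_cast
      rw [h]
      ring
  · intro r hr
    have hr0 := ne_of_mem_QR hr
    rw [mem_QR, quadraticChar_one_iff_isSquare hr0] at hr
    obtain ⟨y, rfl⟩ := hr
    have hy : y ≠ 0 := by
      rintro rfl
      exact hr0 (mul_zero 0)
    refine ⟨y.valMinAbs.natAbs, ?_, ?_⟩
    · rw [mem_Icc]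
      constructor
      · rw [Nat.one_le_iff_ne_zero, Ne, Int.natAbs_eq_zero, ZMod.valMinAbs_eq_zero]
        exact hy
      · have := ZMod.natAbs_valMinAbs_le y
        omega
    · rcases Int.natAbs_eq y.valMinAbs with h | h
      · have h2 : ((y.valMinAbs.natAbs : ℕ) : ZMod p) = y := by
          rw [← Int.cast_natCast, ← h, ZMod.coe_valMinAbs]
        rw [h2, sq]
      · have h2 : ((y.valMinAbs.natAbs : ℕ) : ZMod p) = -y := by
          have h3 : ((y.valMinAbs.natAbs : ℤ) : ZMod p) = ((-y.valMinAbs : ℤ) : ZMod p) := by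
            congr 1; omega
          rw [← Int.cast_natCast, h3]
          simp
        rw [h2]
        ring
  · intro a _
    rfl

lemma card_QR (hp : p ≠ 2) : (QR p).card = (p - 1) / 2 := by
  have h1 := prod_sq (p := p) (M := Multiplicative ℕ) hp (fun _ => Multiplicative.ofAdd 1)
  rw [prod_const, prod_const, Nat.card_Icc] at h1
  have h2 := congrArg Multiplicative.toAdd h1
  simp at h2
  omega

/-- `S_p(x)` as a product over the quadratic residues -/
noncomputable def S (p : ℕ) [Fact p.Prime] (x : ℂ) : ℂ := ∏ r ∈ QR p, (x - e p r)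

/-- the product over the nonresidues -/
noncomputable def N (p : ℕ) [Fact p.Prime] (x : ℂ) : ℂ := ∏ r ∈ NR p, (x - e p r)

lemma S_eq (hp : p ≠ 2) (x : ℂ) :
    ∏ k ∈ Icc 1 ((p - 1) / 2), (x - Complex.exp (2 * (Real.pi : ℂ) * Complex.I * (k : ℂ) ^ 2 / p)) =
      S p x := by
  rw [S, ← prod_sq hp]
  apply prod_congr rfl
  intro k _
  have := e_nat (p := p) (k ^ 2)
  push_cast at this
  rw [this]

/-- the product over all residues -/
lemma prod_all (x : ℂ) : ∏ a : ZMod p, (x - e p a) = x ^ p - 1 := by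
  have hp0 : 0 < p := (Fact.out : p.Prime).pos
  have hprim : IsPrimitiveRoot (Complex.exp (2 * Real.pi * Complex.I / p)) p :=
    Complex.isPrimitiveRoot_exp p hp0.ne'
  have h1 := hprim.pow_sub_pow_eq_prod_sub_mul x 1 hp0
  rw [one_pow] at h1
  rw [h1]
  apply prod_bij (fun a _ => e p a)
  · intro a _
    rw [Polynomial.mem_nthRootsFinset hp0]
    exact e_pow_p a
  · intro a _ b _ hab
    exact e_inj hab
  · intro b hb
    rw [Polynomial.mem_nthRootsFinset hp0] at hb
    obtain ⟨i, hi, rfl⟩ := hprim.eq_pow_of_pow_eq_one hb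
    refine ⟨(i : ZMod p), mem_univ _, ?_⟩
    rw [e_nat, ← Complex.exp_nat_mul]
    congr 1
    ring
  · intro a _
    rw [mul_one]

lemma S_mul_N (x : ℂ) : (x - 1) * (S p x * N p x) = x ^ p - 1 := by
  rw [← prod_all]
  rw [← mul_prod_erase univ (fun a => x - e p a) (mem_univ (0 : ZMod p)), e_zero]
  congr 1
  have h1 : univ.erase (0 : ZMod p) = QR p ∪ NR p := by
    ext a
    rw [mem_erase, mem_union, mem_QR, mem_NR]
    constructor
    · rintro ⟨h, _⟩
      exact quadraticChar_dichotomy h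
    · intro h
      refine ⟨?_, mem_univ _⟩
      rintro rfl
      rw [quadraticChar_zero] at h
      omega
  have h2 : Disjoint (QR p) (NR p) := by
    rw [disjoint_left]
    intro a ha hb
    rw [mem_QR] at ha
    rw [mem_NR, ha] at hb
    omega
  rw [h1, prod_union h2]
  rfl

/-- substitution by a residue -/
lemma S_scale {c : ZMod p} (hc : quadraticChar (ZMod p) c = 1) (f : ZMod p → ℂ) :
    ∏ r ∈ QR p, f (c * r) = ∏ r ∈ QR p, f r := by
  have hc0 : c ≠ 0 := by
    rintro rfl
    rw [quadraticChar_zero] at hc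
    norm_num at hc
  apply prod_bij (fun r _ => c * r)
  · intro r hr
    rw [mem_QR] at hr ⊢
    rw [map_mul, hc, hr, one_mul]
  · intro a _ b _ hab
    exact mul_left_cancel₀ hc0 hab
  · intro b hb
    refine ⟨c⁻¹ * b, ?_, ?_⟩
    · rw [mem_QR] at hb ⊢
      have : quadraticChar (ZMod p) (c * (c⁻¹ * b)) = 1 := by
        rw [← mul_assoc, mul_inv_cancel₀ hc0, one_mul, hb]
      rw [map_mul, hc, one_mul] at this
      exact this
    · rw [← mul_assoc, mul_inv_cancel₀ hc0, one_mul]
  · intro a _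
    rfl

/-- substitution by a nonresidue -/
lemma S_scale_neg {c : ZMod p} (hc : quadraticChar (ZMod p) c = -1) (f : ZMod p → ℂ) :
    ∏ r ∈ QR p, f (c * r) = ∏ r ∈ NR p, f r := by
  have hc0 : c ≠ 0 := by
    rintro rfl
    rw [quadraticChar_zero] at hc
    norm_num at hc
  apply prod_bij (fun r _ => c * r)
  · intro r hr
    rw [mem_QR] at hr
    rw [mem_NR, map_mul, hc, hr, mul_one]
  · intro a _ b _ hab
    exact mul_left_cancel₀ hc0 hab
  · intro b hb
    refine ⟨c⁻¹ * b, ?_, ?_⟩
    · rw [mem_NR] at hb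
      rw [mem_QR]
      have : quadraticChar (ZMod p) (c * (c⁻¹ * b)) = -1 := by
        rw [← mul_assoc, mul_inv_cancel₀ hc0, one_mul, hb]
      rw [map_mul, hc] at this
      linarith
    · rw [← mul_assoc, mul_inv_cancel₀ hc0, one_mul]
  · intro a _
    rfl

/-- half of the residues, if `p ≡ 1` modulo `4` -/
def HH (p : ℕ) [Fact p.Prime] : Finset (ZMod p) := (QR p).filter (fun a => 2 * a.val < p)

lemma char_neg (h4 : p % 4 = 1) (a : ZMod p) :
    quadraticChar (ZMod p) (-a) = quadraticChar (ZMod p) a := by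
  have h1 : quadraticChar (ZMod p) (-1) = 1 := by
    rw [quadraticChar_neg_one (by rw [ZMod.ringChar_zmod_n]; omega), ZMod.card]
    exact ZMod.χ₄_nat_one_mod_four h4
  rw [← neg_one_mul, map_mul, h1, one_mul]

lemma prod_HH (h4 : p % 4 = 1) {M : Type*} [CommMonoid M] (f : ZMod p → M) :
    ∏ r ∈ QR p, f r = ∏ r ∈ HH p, (f r * f (-r)) := by
  rw [← prod_filter_mul_prod_filter_not (QR p) (fun a => 2 * a.val < p), prod_mul_distrib]
  congr 1
  symm
  apply prod_bij (fun r _ => -r)
  · intro r hr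
    rw [HH, mem_filter] at hr
    rw [mem_filter, mem_QR, char_neg h4]
    refine ⟨mem_QR.1 hr.1, ?_⟩
    rw [ZMod.neg_val, if_neg (ne_of_mem_QR hr.1)]
    have := ZMod.val_lt r
    omega
  · intro a _ b _ hab
    exact neg_injective hab
  · intro b hb
    rw [mem_filter] at hb
    refine ⟨-b, ?_, neg_neg b⟩
    rw [HH, mem_filter, mem_QR, char_neg h4]
    refine ⟨mem_QR.1 hb.1, ?_⟩
    rw [ZMod.neg_val, if_neg (ne_of_mem_QR hb.1)]
    have h1 := ZMod.val_lt b
    have h2 := hb.2
    omega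
  · intro a _
    rfl

lemma card_HH (h4 : p % 4 = 1) : (HH p).card = (p - 1) / 4 := by
  have h1 := prod_HH (p := p) h4 (M := Multiplicative ℕ) (fun _ => Multiplicative.ofAdd 1)
  rw [prod_const, prod_const, card_QR (by omega)] at h1
  have h2 := congrArg Multiplicative.toAdd h1
  simp at h2
  omega

/-- `e(r) + e(-r)` as a cosine -/
lemma e_cos (r : ZMod p) : e p r + e p (-r) = ((2 * Real.cos (2 * Real.pi * r.val / p) : ℝ) : ℂ) := by
  have h1 : e p r = Complex.exp (((2 * Real.pi * r.val / p : ℝ) : ℂ) * Complex.I) := by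
    conv_lhs => rw [← ZMod.natCast_zmod_val r]
    rw [e_nat]
    congr 1
    push_cast
    ring
  have h2 : e p (-r) = Complex.exp (-(((2 * Real.pi * r.val / p : ℝ) : ℂ)) * Complex.I) := by
    have h3 := e_neg_mul r
    rw [h1] at h3
    rw [neg_mul, Complex.exp_neg]
    exact eq_inv_of_mul_eq_one_left h3
  rw [h1, h2]
  push_cast
  rw [Complex.two_cos]

/-- the product with the cosines -/
noncomputable def R (p : ℕ) [Fact p.Prime] (u : ℂ) : ℂ :=
  ∏ r ∈ HH p, (u - ((2 * Real.cos (2 * Real.pi * r.val / p) : ℝ) : ℂ))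

lemma S_eq_R (h4 : p % 4 = 1) {x : ℂ} (hx : x ≠ 0) :
    S p x = x ^ ((p - 1) / 4) * R p (x + x⁻¹) := by
  rw [S, prod_HH h4, R, ← card_HH h4, ← prod_const, ← prod_mul_distrib]
  apply prod_congr rfl
  intro r _
  rw [← e_cos]
  have h1 := e_neg_mul r
  have h2 : x * x⁻¹ = 1 := mul_inv_cancel₀ hx
  linear_combination (-1 : ℂ) * h2 + h1

end

end Pool.Agent.Q23.SP
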