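import Pool.Agent.Q23.SP.Quad

/-!
# The products over the quadratic residues at the primitive tenth roots of unity
-/

set_option autoImplicit false

namespace Pool.Agent.Q23.SP

open Finset

section

variable {p : ℕ} [Fact p.Prime]

/-- `η` is a primitive fifth root of unity -/
def Fif (η : ℂ) : Prop := 1 + η + η ^ 2 + η ^ 3 + η ^ 4 = 0

lemma Fif.pow {η : ℂ} (h : Fif η) : η ^ 5 = 1 := by
  unfold Fif at h
  linear_combination (η - 1) * h

lemma Fif.ne {η : ℂ} (h : Fif η) : η ≠ 0 := by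
  rintro rfl
  unfold Fif at h
  norm_num at h

lemma Fif.ne_one {η : ℂ} (h : Fif η) : η ≠ 1 := by
  rintro rfl
  unfold Fif at h
  norm_num at h

lemma Fif.sq {η : ℂ} (h : Fif η) : Fif (η ^ 2) := by
  have h5 := h.pow
  unfold Fif at h ⊢
  linear_combination h + (η + η ^ 3) * h5

lemma Fif.inv {η : ℂ} (h : Fif η) : η⁻¹ = η ^ 4 := by
  have h5 := h.pow
  rw [inv_eq_of_mul_eq_one_right]
  linear_combination h5

lemma Fif.pow_mod {η : ℂ} (h : Fif η) (n : ℕ) : η ^ n = η ^ (n % 5) :=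
  pow_eq_pow_mod n h.pow

lemma S_one_ne (_hp : p ≠ 2) : S p 1 ≠ 0 := by
  rw [S, prod_ne_zero_iff]
  intro r hr h
  have h1 : e p r = e p 0 := by rw [e_zero]; linear_combination -h
  exact ne_of_mem_QR hr (e_inj h1)

lemma prod_S (hp : p ≠ 2) (h5 : quadraticChar (ZMod p) 5 = 1) {η : ℂ} (h : Fif η) :
    S p η * S p (η ^ 2) * S p (η ^ 3) * S p (η ^ 4) = 1 := by
  apply mul_left_cancel₀ (S_one_ne (p := p) hp)
  rw [mul_one]
  have h1 : S p 1 = ∏ r ∈ QR p, (1 - e p (5 * r)) := by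
    rw [S_scale (c := (5 : ZMod p)) h5 (fun r => 1 - e p r)]
    rfl
  conv_rhs => rw [h1]
  unfold S
  rw [← prod_mul_distrib, ← prod_mul_distrib, ← prod_mul_distrib, ← prod_mul_distrib]
  apply prod_congr rfl
  intro r _
  have h2 : e p (5 * r) = e p r ^ 5 := by
    have := e_nsmul (p := p) 5 r
    push_cast at this
    exact this
  rw [h2]
  unfold Fif at h
  linear_combination (1 - e p r) * ((-1 + η - η ^ 5 + η ^ 6) + (-1 + η - η ^ 5) * e p r +
    (-1 + η + η ^ 3) * e p r ^ 2 - e p r ^ 3) * h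

/-- the golden ratio -/
noncomputable def gold : ℝ := 2 * Real.cos (2 * Real.pi / 10)

/-- the primitive tenth root of unity `exp (2 π i / 10)` -/
noncomputable def z0 : ℂ := Complex.exp (2 * Real.pi * Complex.I / 10)

lemma z0_pow : z0 ^ 5 = -1 := by
  rw [z0, ← Complex.exp_nat_mul]
  have : ((5 : ℕ) : ℂ) * (2 * Real.pi * Complex.I / 10) = Real.pi * Complex.I := by
    push_cast; ring
  rw [this, Complex.exp_pi_mul_I]

lemma z0_prim : IsPrimitiveRoot z0 10 := by
  have := Complex.isPrimitiveRoot_exp 10 (by norm_num)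
  push_cast at this
  exact this

lemma z0_fif : Fif (-z0) := by
  have h1 : (-z0 - 1) * (1 + (-z0) + (-z0) ^ 2 + (-z0) ^ 3 + (-z0) ^ 4) = 0 := by
    linear_combination (-1 : ℂ) * z0_pow
  rcases mul_eq_zero.1 h1 with h | h
  · exfalso
    have h2 : z0 ^ 2 = 1 := by
      have : z0 = -1 := by linear_combination -h
      rw [this]; norm_num
    have := z0_prim.dvd_of_pow_eq_one 2 h2
    omega
  · exact h

lemma z0_inv : z0 + z0⁻¹ = (gold : ℂ) := by
  have h1 : z0 = Complex.exp (((2 * Real.pi / 10 : ℝ) : ℂ) * Complex.I) := by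
    rw [z0]; congr 1; push_cast; ring
  rw [gold, h1, ← Complex.exp_neg, ← neg_mul]
  push_cast
  rw [Complex.two_cos]

lemma fif_u {η : ℂ} (h : Fif η) : (η + η⁻¹) ^ 2 + (η + η⁻¹) - 1 = 0 := by
  rw [h.inv]
  have h5 := h.pow
  unfold Fif at h
  linear_combination h + (2 + η ^ 3) * h5

lemma fif_u2 {η : ℂ} (h : Fif η) : η ^ 2 + (η ^ 2)⁻¹ = -1 - (η + η⁻¹) := by
  rw [h.sq.inv, h.inv]
  have h5 := h.pow
  unfold Fif at h
  linear_combination h + η ^ 3 * h5

/-- the number `E = ± 1` -/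
noncomputable def EE (p : ℕ) [Fact p.Prime] : ℂ := R p (-gold) * R p (-1 + gold)

lemma R_prod {η : ℂ} (h : Fif η) :
    R p (η + η⁻¹) * R p (η ^ 2 + (η ^ 2)⁻¹) = EE p := by
  have h1 := fif_u h
  have h2 := fif_u z0_fif
  have h3 : -z0 + (-z0)⁻¹ = -(gold : ℂ) := by
    rw [inv_neg, ← z0_inv]; ring
  rw [h3] at h2
  rw [fif_u2 h, EE]
  have h4 : ((η + η⁻¹) - (-(gold : ℂ))) * ((η + η⁻¹) - (-1 + gold)) = 0 := by
    linear_combination h1 - h2
  rcases mul_eq_zero.1 h4 with h5 | h5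
  · have h6 : η + η⁻¹ = -(gold : ℂ) := by linear_combination h5
    rw [h6]
    congr 2
    ring
  · have h6 : η + η⁻¹ = -1 + (gold : ℂ) := by linear_combination h5
    rw [h6, mul_comm]
    congr 2
    ring

lemma SS_prod (h4 : p % 4 = 1) {η : ℂ} (h : Fif η) :
    S p η * S p (η ^ 2) = η ^ (3 * ((p - 1) / 4)) * EE p := by
  rw [S_eq_R h4 h.ne, S_eq_R h4 h.sq.ne, ← R_prod h]
  ring

lemma EE_sq (h4 : p % 4 = 1) (h5 : quadraticChar (ZMod p) 5 = 1) : EE p ^ 2 = 1 := by
  have h := z0_fif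
  have h1 := prod_S (p := p) (by omega) h5 h
  have h2 := SS_prod (p := p) h4 h
  have h3 := SS_prod (p := p) h4 h.sq.sq
  have h6 : ((-z0) ^ 2) ^ 2 = (-z0) ^ 4 := by ring
  have h7 : ((-z0) ^ 4) ^ 2 = (-z0) ^ 3 := by
    have := h.pow
    linear_combination (-z0) ^ 3 * this
  rw [h6, h7] at h3
  have h8 : (S p (-z0) * S p ((-z0) ^ 2)) * (S p ((-z0) ^ 4) * S p ((-z0) ^ 3)) = 1 := by
    rw [← h1]; ring
  rw [h2, h3] at h8
  have h9 : (-z0) ^ (3 * ((p - 1) / 4)) * ((-z0) ^ 4) ^ (3 * ((p - 1) / 4)) = 1 := by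
    rw [← mul_pow, show (-z0) * (-z0) ^ 4 = (-z0) ^ 5 by ring, h.pow, one_pow]
  linear_combination h8 - EE p ^ 2 * h9

/-- `S(x) S(-x) = N(x^2)` if `2` is a nonresidue -/
lemma S_mul_neg (h4 : p % 4 = 1) (h2 : quadraticChar (ZMod p) 2 = -1) (x : ℂ) :
    S p x * S p (-x) = N p (x ^ 2) := by
  rw [N, ← S_scale_neg h2 (fun r => x ^ 2 - e p r)]
  unfold S
  rw [← prod_mul_distrib]
  have h1 : ∀ r ∈ QR p, (x - e p r) * (-x - e p r) = (-1) * (x ^ 2 - e p (2 * r)) := by
    intro r _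
    have h3 : e p (2 * r) = e p r ^ 2 := by
      have := e_nsmul (p := p) 2 r
      push_cast at this
      exact this
    rw [h3]
    ring
  rw [prod_congr rfl h1, prod_mul_distrib, prod_const, card_QR (by omega)]
  have h3 : (-1 : ℂ) ^ ((p - 1) / 2) = 1 := by
    apply Even.neg_one_pow
    rw [Nat.even_iff]
    omega
  rw [h3, one_mul]

lemma main_eq (h4 : p % 4 = 1) (h2 : quadraticChar (ZMod p) 2 = -1)
    (h5 : quadraticChar (ZMod p) 5 = 1) {η : ℂ} (h : Fif η) :
    (η ^ 2 - 1) * (η ^ (3 * ((p - 1) / 4)) * S p (-η)) = EE p * ((η ^ 2) ^ p - 1) := by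
  have h1 := S_mul_N (p := p) (η ^ 2)
  rw [← S_mul_neg h4 h2 η] at h1
  have h3 := SS_prod (p := p) h4 h
  have h6 := EE_sq (p := p) h4 h5
  rw [← h1]
  linear_combination (-(η ^ 2 - 1) * S p (-η) * EE p) * h3 -
    (η ^ 2 - 1) * S p (-η) * η ^ (3 * ((p - 1) / 4)) * h6

lemma caseA (hp : p % 40 = 21) (h2 : quadraticChar (ZMod p) 2 = -1)
    (h5 : quadraticChar (ZMod p) 5 = 1) {η : ℂ} (h : Fif η) : S p (-η) = EE p := by
  have h1 := main_eq (p := p) (by omega) h2 h5 h
  have h3 : η ^ (3 * ((p - 1) / 4)) = 1 := by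
    rw [h.pow_mod, show 3 * ((p - 1) / 4) % 5 = 0 by omega, pow_zero]
  have h6 : (η ^ 2) ^ p = η ^ 2 := by
    rw [← pow_mul, h.pow_mod, show 2 * p % 5 = 2 by omega]
  rw [h3, h6, one_mul, mul_comm (EE p)] at h1
  refine mul_left_cancel₀ ?_ h1
  intro h7
  exact h.sq.ne_one (by linear_combination h7)

lemma caseB (hp : p % 40 = 29) (h2 : quadraticChar (ZMod p) 2 = -1)
    (h5 : quadraticChar (ZMod p) 5 = 1) {η : ℂ} (h : Fif η) : S p (-η) = -EE p * η ^ 2 := by
  have h1 := main_eq (p := p) (by omega) h2 h5 h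
  have h3 : η ^ (3 * ((p - 1) / 4)) = η := by
    rw [h.pow_mod, show 3 * ((p - 1) / 4) % 5 = 1 by omega, pow_one]
  have h6 : (η ^ 2) ^ p = η ^ 3 := by
    rw [← pow_mul, h.pow_mod, show 2 * p % 5 = 3 by omega]
  rw [h3, h6] at h1
  have h7 : (η ^ 2 - 1) * η ≠ 0 := by
    apply mul_ne_zero _ h.ne
    intro h7
    exact h.sq.ne_one (by linear_combination h7)
  apply mul_left_cancel₀ h7
  have h8 := h.pow
  linear_combination h1 + EE p * h8

/-- the real number `R(gold)` -/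
lemma R_gold_pow (h4 : p % 4 = 1) : S p z0 = z0 ^ ((p - 1) / 4) * R p gold := by
  have h : z0 ≠ 0 := by
    have := z0_fif.ne
    intro h
    rw [h, neg_zero] at this
    exact this rfl
  rw [S_eq_R h4 h, z0_inv]

lemma EE_caseA (hp : p % 40 = 21) (h2 : quadraticChar (ZMod p) 2 = -1)
    (h5 : quadraticChar (ZMod p) 5 = 1) : EE p = -R p gold := by
  have h1 := caseA hp h2 h5 z0_fif
  rw [neg_neg, R_gold_pow (by omega)] at h1
  have h3 : z0 ^ ((p - 1) / 4) = -1 := by
    rw [pow_eq_pow_mod ((p - 1) / 4) z0_prim.pow_eq_one, show (p - 1) / 4 % 10 = 5 by omega,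
      z0_pow]
  rw [← h1, h3]
  ring

lemma EE_caseB (hp : p % 40 = 29) (h2 : quadraticChar (ZMod p) 2 = -1)
    (h5 : quadraticChar (ZMod p) 5 = 1) : EE p = R p gold := by
  have h1 := caseB hp h2 h5 z0_fif
  rw [neg_neg, R_gold_pow (by omega)] at h1
  have h3 : z0 ^ ((p - 1) / 4) = -z0 ^ 2 := by
    rw [pow_eq_pow_mod ((p - 1) / 4) z0_prim.pow_eq_one, show (p - 1) / 4 % 10 = 7 by omega]
    linear_combination z0 ^ 2 * z0_pow
  rw [h3] at h1
  have h6 : z0 ^ 2 ≠ 0 := by
    have := z0_fif.sq.ne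
    rwa [neg_sq] at this
  apply mul_left_cancel₀ h6
  linear_combination h1

/-! ### The sign -/

/-- the real product -/
lemma R_gold_real : R p gold = ((∏ r ∈ HH p, (gold - 2 * Real.cos (2 * Real.pi * r.val / p)) : ℝ) : ℂ) := by
  rw [R]
  push_cast
  rfl

lemma sign_factor {k : ℕ} (hk : 0 < k) (hkp : 2 * k < p) (h10 : 10 * k ≠ p) :
    gold - 2 * Real.cos (2 * Real.pi * k / p) =
      (if 10 * k < p then -1 else 1) * |gold - 2 * Real.cos (2 * Real.pi * k / p)| := by
  have hp0 : (0 : ℝ) < p := by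
    have := (Fact.out : p.Prime).pos
    exact_mod_cast this
  have hpi := Real.pi_pos
  have hk0 : (0 : ℝ) < k := by exact_mod_cast hk
  have hkp' : 2 * (k : ℝ) < p := by exact_mod_cast hkp
  have h1 : 2 * Real.pi * k / p ≤ Real.pi := by
    rw [div_le_iff₀ hp0]
    nlinarith
  have h0 : 0 ≤ 2 * Real.pi * k / p := by positivity
  rw [gold]
  split_ifs with h
  · have h' : 10 * (k : ℝ) < p := by exact_mod_cast h
    have h2 : 2 * Real.pi * k / p < 2 * Real.pi / 10 := by
      rw [div_lt_div_iff₀ hp0 (by norm_num)]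
      nlinarith
    have h3 : Real.cos (2 * Real.pi / 10) < Real.cos (2 * Real.pi * k / p) :=
      Real.cos_lt_cos_of_nonneg_of_le_pi h0 (by linarith) h2
    rw [abs_of_neg (by linarith)]
    ring
  · have h' : (p : ℝ) < 10 * (k : ℝ) := by
      have : p < 10 * k := by omega
      exact_mod_cast this
    have h2 : 2 * Real.pi / 10 < 2 * Real.pi * k / p := by
      rw [div_lt_div_iff₀ (by norm_num) hp0]
      nlinarith
    have h3 : Real.cos (2 * Real.pi * k / p) < Real.cos (2 * Real.pi / 10) :=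
      Real.cos_lt_cos_of_nonneg_of_le_pi (by positivity) h1 h2
    rw [abs_of_pos (by linarith)]
    ring

lemma R_gold_eq (h4 : p % 4 = 1) (hR : R p gold = 1 ∨ R p gold = -1) :
    R p gold = (-1) ^ ((Icc 1 (p / 10)).filter
      (fun k : ℕ => quadraticChar (ZMod p) (k : ZMod p) = 1)).card := by
  have hpp := (Fact.out : p.Prime)
  have h1 : ∏ r ∈ HH p, (gold - 2 * Real.cos (2 * Real.pi * r.val / p)) =
      (∏ r ∈ HH p, (if 10 * r.val < p then (-1 : ℝ) else 1)) *
        |∏ r ∈ HH p, (gold - 2 * Real.cos (2 * Real.pi * r.val / p))| := by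
    rw [abs_prod, ← prod_mul_distrib]
    apply prod_congr rfl
    intro r hr
    rw [HH, mem_filter] at hr
    apply sign_factor
    · have := ne_of_mem_QR hr.1
      rw [Nat.pos_iff_ne_zero, Ne, ZMod.val_eq_zero]
      exact this
    · exact hr.2
    · intro h
      omega
  have h2 : |∏ r ∈ HH p, (gold - 2 * Real.cos (2 * Real.pi * r.val / p))| = 1 := by
    rw [R_gold_real] at hR
    rcases hR with h | h
    · have h3 : (∏ r ∈ HH p, (gold - 2 * Real.cos (2 * Real.pi * r.val / p)) : ℝ) = 1 := by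
        exact_mod_cast h
      rw [h3, abs_one]
    · have h3 : (∏ r ∈ HH p, (gold - 2 * Real.cos (2 * Real.pi * r.val / p)) : ℝ) = -1 := by
        exact_mod_cast h
      rw [h3, abs_neg, abs_one]
  rw [h2, mul_one] at h1
  rw [R_gold_real, h1, prod_ite, prod_const_one, mul_one, prod_const]
  have h3 : ((HH p).filter (fun r => 10 * r.val < p)).card = ((Icc 1 (p / 10)).filter
      (fun k : ℕ => quadraticChar (ZMod p) (k : ZMod p) = 1)).card := by
    apply card_bij (fun r _ => r.val)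
    · intro r hr
      rw [mem_filter, HH, mem_filter] at hr
      rw [mem_filter, mem_Icc, ZMod.natCast_zmod_val]
      refine ⟨⟨?_, by omega⟩, mem_QR.1 hr.1.1⟩
      have := ne_of_mem_QR hr.1.1
      rw [Nat.one_le_iff_ne_zero, Ne, ZMod.val_eq_zero]
      exact this
    · intro a _ b _ hab
      exact ZMod.val_injective p hab
    · intro b hb
      rw [mem_filter, mem_Icc] at hb
      have hb2 : b < p := by omega
      have hb3 : 10 * b < p := by
        rcases Nat.lt_or_ge (10 * b) p with h | h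
        · exact h
        · exfalso
          omega
      refine ⟨(b : ZMod p), ?_, ZMod.val_natCast_of_lt hb2⟩
      rw [mem_filter, HH, mem_filter, ZMod.val_natCast_of_lt hb2, mem_QR]
      exact ⟨⟨hb.2, by omega⟩, hb3⟩
  rw [h3]
  push_cast
  rfl

/-- counting by the product of the characters -/
lemma count_neg (T : ℕ) (hT : T < p) :
    (-1 : ℤ) ^ ((Icc 1 T).filter (fun k : ℕ => quadraticChar (ZMod p) (k : ZMod p) = -1)).card =
      ∏ k ∈ Icc 1 T, quadraticChar (ZMod p) ((k : ℕ) : ZMod p) := by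
  have h1 : ∀ k ∈ Icc 1 T, quadraticChar (ZMod p) ((k : ℕ) : ZMod p) =
      if quadraticChar (ZMod p) ((k : ℕ) : ZMod p) = -1 then -1 else 1 := by
    intro k hk
    rw [mem_Icc] at hk
    have h2 : ((k : ℕ) : ZMod p) ≠ 0 := by
      intro h3
      rw [ZMod.natCast_eq_zero_iff] at h3
      exact absurd (Nat.le_of_dvd (by omega) h3) (by omega)
    rcases quadraticChar_dichotomy h2 with h3 | h3
    · rw [h3, if_neg (by norm_num)]
    · rw [h3, if_pos rfl]
  rw [prod_congr rfl h1, prod_ite, prod_const_one, mul_one, prod_const]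

lemma count_pos (T : ℕ) (hT : T < p) (hT2 : Even T) :
    (-1 : ℤ) ^ ((Icc 1 T).filter (fun k : ℕ => quadraticChar (ZMod p) (k : ZMod p) = 1)).card =
      ∏ k ∈ Icc 1 T, quadraticChar (ZMod p) ((k : ℕ) : ZMod p) := by
  have h1 : ∀ k ∈ Icc 1 T, quadraticChar (ZMod p) ((k : ℕ) : ZMod p) =
      (-1) * if quadraticChar (ZMod p) ((k : ℕ) : ZMod p) = 1 then -1 else 1 := by
    intro k hk
    rw [mem_Icc] at hk
    have h2 : ((k : ℕ) : ZMod p) ≠ 0 := by
      intro h3
      rw [ZMod.natCast_eq_zero_iff] at h3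
      exact absurd (Nat.le_of_dvd (by omega) h3) (by omega)
    rcases quadraticChar_dichotomy h2 with h3 | h3
    · rw [h3, if_pos rfl]; norm_num
    · rw [h3, if_neg (by norm_num)]; norm_num
  rw [prod_congr rfl h1, prod_mul_distrib, prod_ite, prod_const_one, mul_one, prod_const, prod_const,
    Nat.card_Icc, Nat.add_sub_cancel, hT2.neg_one_pow, one_mul]

end

end Pool.Agent.Q23.SP
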